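import Pool.Agent.H92.Am.GPBass

/-!
# The Bass trace conjecture for graph products over a common retract

Let `C` be a group, let `G v` (`v ∈ V`) be groups with homomorphisms `φ v : C → G v` and
`ρ v : G v → C` such that `ρ v ∘ φ v = id`, that is, `C` is a retract of all `G v`, and let `Γ` be a
graph with the vertices `v ∈ V` (finite or infinite). The graph product `GProd Γ φ ρ` is the quotient
of the amalgamated product of the `G v` over `C` in which the kernels of `ρ v` and `ρ w` commute for
adjacent vertices `v`, `w`.

* If `C` is trivial, then `GProd Γ φ ρ` is the graph product of the groups `G v`.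
* If `Γ` has no edges, then `GProd Γ φ ρ` is the amalgamated product of the groups `G v` over `C`.

For a finite clique `Δ` of `Γ` the group `Fib ρ Δ` is the fibre product over `C` of the `G v`,
`v ∈ Δ`; it is the direct product of these groups if `C` is trivial. It is `C` for `Δ = ∅`, and `G v`
for `Δ = {v}`.

The theorem: over every domain, the Bass trace conjecture holds for the graph product if and only if
it holds for the fibre products `Fib ρ Δ` of all finite cliques `Δ`.
-/

set_option autoImplicit false

namespace Pool.Agent.Results.MP_7903c7_al.GraphProducts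

open Pool.Agent.H92.Am (GProd Fib)

universe u v

/-- The Bass trace conjecture for the domain `R` and the group `G`. -/
def BassFor (R : Type v) [CommRing R] [IsDomain R] (G : Type u) [Group G] : Prop :=
  ∀ (n : ℕ) (A : Matrix (Fin n) (Fin n) (MonoidAlgebra R G)), A * A = A →
    ∀ g : G, ¬ IsUnit ((orderOf g : ℕ) : R) →
      ∑ i : Fin n, ∑ᶠ (h : G) (_ : IsConj h g), (A i i).coeff h = 0

theorem result (R : Type v) [CommRing R] [IsDomain R] {V : Type u} (Γ : SimpleGraph V)
    {C : Type u} [Group C] {G : V → Type u} [∀ v, Group (G v)] (φ : ∀ v, C →* G v)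
    (ρ : ∀ v, G v →* C) (hρ : ∀ v, (ρ v).comp (φ v) = MonoidHom.id C) :
    BassFor R (GProd Γ φ ρ) ↔
      ∀ Δ : Finset V, Γ.IsClique (Δ : Set V) → BassFor R (Fib ρ Δ) :=
  ⟨fun h Δ hΔ => Pool.Agent.H92.Am.bass_fib Γ φ ρ hρ R h Δ hΔ,
    fun h => Pool.Agent.H92.Am.bass_gprod Γ φ ρ hρ R h⟩

end Pool.Agent.Results.MP_7903c7_al.GraphProducts
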