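import Pool.Agent.H92.Rc.Det

/-!
# The Bass trace conjecture for the groups `F / W(N)`, `W` a nilpotent variety

Let `W` be a set of words such that the variety of groups defined by `W` is nilpotent and contains
all abelian groups, and let `W(N)` be the corresponding verbal subgroup of a group `N`; for instance
`W(N)` may be the term `γ_{c+1}(N)`, `c ≥ 1`, of the lower central series of `N`. The Bass trace
conjecture holds over every domain for the groups `F / W(N)`, `N` an arbitrary normal subgroup of a
free group `F`, and for all groups which are detected by such groups, where the free group `F` may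
even be replaced by a free product.
-/

set_option autoImplicit false

namespace Pool.Agent.Results.MP_7903c7_al.NilpotentRelationGroups

open Pool.Agent.H92.Rc (vs DetW)
open Pool.Agent.Y75.BF (InfOrd)

universe u v w

/-- The Bass trace conjecture for the domain `R` and the group `G`. -/
def BassFor (R : Type u) [CommRing R] [IsDomain R] (G : Type v) [Group G] : Prop :=
  ∀ (n : ℕ) (A : Matrix (Fin n) (Fin n) (MonoidAlgebra R G)), A * A = A →
    ∀ g : G, ¬ IsUnit ((orderOf g : ℕ) : R) →
      ∑ i : Fin n, ∑ᶠ (h : G) (_ : IsConj h g), (A i i).coeff h = 0

/-- Let `W` be a set of words in `x_0, x_1, …`, contained in the commutator subgroup of the free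
group `F_∞` and such that some term of the lower central series of `F_∞` is contained in the verbal
subgroup `W(F_∞)`, and let `R` be any commutative domain.

* If for every element `h` of infinite order of a group `H` and every finitely generated subgroup
`H0` containing `h` there is a homomorphism from `H0` to a group `P / W(N)` for which the image of `h`
has infinite order, where `P` is a free product of a free group and of groups `T i`, and `N` is a
normal subgroup of `P` which meets all `T i` trivially, such that no element of infinite order of a
factor `T i` is conjugate to a proper power modulo `N` (the `T i` may be arbitrary torsion groups,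
and there may be no `T i`), then `H` satisfies the Bass trace conjecture over `R`.
* In particular, `F / W(N)` satisfies the conjecture for all normal subgroups `N` of free groups `F`.
* In particular, all groups `F / γ_{c+1}(N)`, `c ≥ 1`, satisfy the conjecture. -/
theorem result (R : Type u) [CommRing R] [IsDomain R] :
    (∀ (W : Set (FreeGroup ℕ)), (∀ w ∈ W, w ∈ commutator (FreeGroup ℕ)) →
      (∃ c : ℕ, (⊤ : Subgroup (FreeGroup ℕ)).lowerCentralSeries c ≤ vs W ⊤) →
      (∀ (H : Type w) [Group H], (∀ h : H, InfOrd h → DetW.{v} W H h) → BassFor R H) ∧
      (∀ (X : Type v) (N : Subgroup (FreeGroup X)) [N.Normal],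
        BassFor R (FreeGroup X ⧸ vs W N))) ∧
    (∀ (X : Type v) (N : Subgroup (FreeGroup X)) [N.Normal] (c : ℕ), 1 ≤ c →
      BassFor R (FreeGroup X ⧸ N.lowerCentralSeries c)) := by
  refine ⟨?_, ?_⟩
  · rintro W hW ⟨c, hc⟩
    have hc' : (⊤ : Subgroup (FreeGroup ℕ)).lowerCentralSeries c ≤
        Pool.Agent.H92.Rc.verb W (FreeGroup ℕ) := fun x hx => Pool.Agent.H92.Rc.verb_of_vs (hc hx)
    refine ⟨?_, ?_⟩
    · intro H _ hH
      exact Pool.Agent.H92.Rc.bass_det.{u, v, w} R hW hc' H hH
    · intro X N _
      exact Pool.Agent.H92.Rc.bass_det.{u, v, v} R hW hc' _
        (fun h hh => Pool.Agent.H92.Rc.det_free W X N h hh)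
  · intro X N _ c hc
    exact Pool.Agent.H92.Rc.bass_lcs R X N c hc

end Pool.Agent.Results.MP_7903c7_al.NilpotentRelationGroups
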