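import Pool.Agent.H92.Bs.Poly

/-!
The Bass trace conjecture lifts through virtually split extensions with polycyclic-by-finite kernel.
-/

set_option autoImplicit false

namespace Pool.Agent.Results.MP_7903c7_al.PolycyclicKernels

universe u v

/-- The Bass trace conjecture for the ring `R` and the group `G`. -/
def BassFor (R : Type u) [CommRing R] (G : Type v) [Group G] : Prop :=
  ∀ (n : ℕ) (A : Matrix (Fin n) (Fin n) (MonoidAlgebra R G)), A * A = A →
    ∀ g : G, ¬ IsUnit ((orderOf g : ℕ) : R) →
      ∑ i : Fin n, ∑ᶠ (h : G) (_ : IsConj h g), (A i i).coeff h = 0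

/-- Let `R` be a commutative domain and `k` the algebraic closure of its field of fractions. Let `N`
be a polycyclic-by-finite (that is, virtually solvable with all subgroups finitely generated) normal
subgroup of a group `G`, and suppose that the extension `1 → N → G → G / N → 1` splits virtually:
there is a subgroup `M` of `G` that meets `N` trivially and such that `N M` has finite index in `G`
(for example `G = N ⋊ Q`). If the Bass trace conjecture holds for `k` and all subgroups of finite
index of `G / N`, then it holds for `R` and all subgroups of finite index of `G`. -/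
theorem result (R : Type u) [CommRing R] [IsDomain R] (G : Type v) [Group G] (N M : Subgroup G)
    [N.Normal] (hsol : ∃ S : Subgroup N, S.FiniteIndex ∧ Group.IsSolvable S)
    (hfg : ∀ S : Subgroup N, S.FG) (hMN : M ⊓ N = ⊥) (hfi : (N ⊔ M).FiniteIndex)
    (hQ : ∀ Q : Subgroup (G ⧸ N), Q.FiniteIndex →
      BassFor (AlgebraicClosure (FractionRing R)) Q) :
    ∀ H : Subgroup G, H.FiniteIndex → BassFor R H := by
  intro H hH n A hA g hg
  have h1 : Pool.Agent.H92.Bs.FB (AlgebraicClosure (FractionRing R)) G :=
    Pool.Agent.H92.Bs.fb_lift N M ⟨hfg, hsol⟩ hMN hfi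
      (fun Q hQf m B hB q hq => hQ Q hQf m B hB q hq)
  have h2 := h1 H hH
  refine Pool.Agent.H92.Bs.bass_desc R
    ((algebraMap (FractionRing R) (AlgebraicClosure (FractionRing R))).comp
      (algebraMap R (FractionRing R))) ?_ h2 n A hA g hg
  rw [RingHom.coe_comp]
  exact (algebraMap (FractionRing R) (AlgebraicClosure (FractionRing R))).injective.comp
    (IsFractionRing.injective R (FractionRing R))

end Pool.Agent.Results.MP_7903c7_al.PolycyclicKernels
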