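import Pool.Agent.H92.Wr.Bass

/-!
# The Bass trace conjecture for permutational wreath products

Let `Q` be a group acting on a set `Ω` and let `H` be a group. The restricted wreath product
`WP Q Ω H` is the group of the pairs `(l, r)`, where `l : Ω → H` has finite support and `r` is in
`Q`, with the product `(l, r) (l', r') = (l'', r r')`, `l'' x = l x * l' (r⁻¹ x)`. It is the
semidirect product of the restricted direct power of `H` and `Q`. For `Ω = Q` with the left
multiplication this is the standard restricted wreath product.

An element `h` of a group is exceptional over the domain `R` (`Exc R h`) if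

* for every prime `p` that is not a unit in `R` it is conjugate to `h ^ (p ^ j)` for some `j ≥ 1`, and
* if `R` has characteristic zero, then there are integers `m ≥ 2`, `J ≥ 1` such that `h` is conjugate
  to `h ^ (n ^ J)` for all `n` prime to `m`.

Assume that all nontrivial exceptional elements of `H` have finite order, and that they do not exist
at all if some element of infinite order of `Q` fixes a point of `Ω`. The theorem: the Bass trace
conjecture over `R` holds for the wreath product `WP Q Ω H` if and only if it holds for `Q`.
-/

set_option autoImplicit false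

namespace Pool.Agent.Results.MP_7903c7_al.WreathProducts

open Pool.Agent.H92.Wr (WP Exc)

universe u v w z

/-- The Bass trace conjecture for the domain `R` and the group `G`. -/
def BassFor (R : Type v) [CommRing R] [IsDomain R] (G : Type u) [Group G] : Prop :=
  ∀ (n : ℕ) (A : Matrix (Fin n) (Fin n) (MonoidAlgebra R G)), A * A = A →
    ∀ g : G, ¬ IsUnit ((orderOf g : ℕ) : R) →
      ∑ i : Fin n, ∑ᶠ (h : G) (_ : IsConj h g), (A i i).coeff h = 0

theorem result (R : Type z) [CommRing R] [IsDomain R] (Q : Type w) [Group Q] (Ω : Type u)
    [MulAction Q Ω] (H : Type v) [Group H]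
    (hH : ∀ h : H, Exc R h → h = 1 ∨ ((∃ n : ℕ, 0 < n ∧ h ^ n = 1) ∧
      ∀ (x : Ω) (q : Q), q • x = x → ∃ n : ℕ, 0 < n ∧ q ^ n = 1)) :
    BassFor R (WP Q Ω H) ↔ BassFor R Q :=
  Pool.Agent.H92.Wr.bass_wp hH

end Pool.Agent.Results.MP_7903c7_al.WreathProducts
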